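import Pool.Agent.Run7.h426.DOM.Iface

set_option autoImplicit false

namespace Run7.h426.DOM

open Finset

/-- the two edges at a vertex of type (1,1) -/
theorem two_edges {I : Finset ℕ} {E : ℕ → Finset ℕ} (hS : Sz34 I E) {v f : ℕ}
    (h4 : dg 4 v I E = 1) (h3 : dg 3 v I E = 1) (hf : f ∈ I) (hvf : v ∈ E f)
    (hf3 : (E f).card = 3) :
    ∃ k ∈ I, (E k).card = 4 ∧ v ∈ E k ∧ ∀ i ∈ I, v ∈ E i → i = f ∨ i = k := by
  unfold dg at h4 h3
  obtain ⟨k, hk⟩ := card_eq_one.1 h4
  obtain ⟨g, hg⟩ := card_eq_one.1 h3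
  have hk' : k ∈ I.filter (fun i => v ∈ E i ∧ (E i).card = 4) := by
    rw [hk]; exact mem_singleton_self k
  have hfg : f ∈ I.filter (fun i => v ∈ E i ∧ (E i).card = 3) := mem_filter.2 ⟨hf, hvf, hf3⟩
  have hfg' : f = g := by
    rw [hg] at hfg; exact mem_singleton.1 hfg
  rw [mem_filter] at hk'
  refine ⟨k, hk'.1, hk'.2.2, hk'.2.1, fun i hi hvi => ?_⟩
  rcases hS i hi with h | h
  · left
    have : i ∈ I.filter (fun i => v ∈ E i ∧ (E i).card = 3) := mem_filter.2 ⟨hi, hvi, h⟩
    rw [hg] at this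
    rw [mem_singleton.1 this, hfg']
  · right
    have : i ∈ I.filter (fun i => v ∈ E i ∧ (E i).card = 4) := mem_filter.2 ⟨hi, hvi, h⟩
    rw [hk] at this
    exact mem_singleton.1 this

/-- shrinking at a vertex whose only edge has size 4 -/
theorem W_sh_one {J : Finset ℕ} {E : ℕ → Finset ℕ} {a k : ℕ} (hk : k ∈ J) (hak : a ∈ E k)
    (hk4 : (E k).card = 4) (hu : ∀ i ∈ J, a ∈ E i → i = k) :
    W J (sh a E) + 1 = W J E := by
  have haU : a ∈ U J E := mem_biUnion.2 ⟨k, hk, hak⟩
  have h := W_sh (I := J) (E := E) a haU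
  have e : J.filter (fun i => a ∈ E i) = {k} := by
    ext i
    rw [mem_filter, mem_singleton]
    constructor
    · rintro ⟨hi, hai⟩
      exact hu i hi hai
    · rintro rfl
      exact ⟨hk, hak⟩
  rw [e, sum_singleton, sum_singleton, hk4] at h
  simp only [wt] at h
  norm_num at h
  omega

theorem t_L6B : S_L6B := by
  intro I E hP hH hS hL hT hex
  obtain ⟨f, hf, hf3, hall⟩ := hex
  obtain ⟨v, a, b, hva, hvb, hab, hE⟩ := card_eq_three.1 hf3
  have hvf : v ∈ E f := by rw [hE]; simp
  have haf : a ∈ E f := by rw [hE]; simp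
  have hbf : b ∈ E f := by rw [hE]; simp
  obtain ⟨kv, hkv, hkv4, hvkv, huv⟩ := two_edges hS (hall v hvf).1 (hall v hvf).2 hf hvf hf3
  obtain ⟨ka, hka, hka4, haka, hua⟩ := two_edges hS (hall a haf).1 (hall a haf).2 hf haf hf3
  obtain ⟨kb, hkb, hkb4, hbkb, hub⟩ := two_edges hS (hall b hbf).1 (hall b hbf).2 hf hbf hf3
  have hfkv : f ≠ kv := by rintro rfl; omega
  have hfka : f ≠ ka := by rintro rfl; omega
  have hfkb : f ≠ kb := by rintro rfl; omega
  have hvka : v ∉ E ka := fun h => hva (hL f hf ka hka hfka v hvf h a haf haka)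
  have hbka : b ∉ E ka := fun h => hab (hL f hf ka hka hfka a haf haka b hbf h)
  have hvkb : v ∉ E kb := fun h => hvb (hL f hf kb hkb hfkb v hvf h b hbf hbkb)
  have hakb : a ∉ E kb := fun h => hab (hL f hf kb hkb hfkb a haf h b hbf hbkb)
  have hkaJ : ka ∈ tk v I E := mem_filter.2 ⟨hka, hvka⟩
  have hkbJ : kb ∈ tk v I E := mem_filter.2 ⟨hkb, hvkb⟩
  have hvU : v ∈ U I E := mem_biUnion.2 ⟨f, hf, hvf⟩
  -- edges of the reduced system
  have hJa : ∀ i ∈ tk v I E, a ∈ E i → i = ka := by
    intro i hi hai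
    obtain ⟨hi1, hi2⟩ := mem_filter.1 hi
    rcases hua i hi1 hai with rfl | h
    · exact absurd hvf hi2
    · exact h
  have hJb : ∀ i ∈ tk v I E, b ∈ E i → i = kb := by
    intro i hi hbi
    obtain ⟨hi1, hi2⟩ := mem_filter.1 hi
    rcases hub i hi1 hbi with rfl | h
    · exact absurd hvf hi2
    · exact h
  have hW1 : W (tk v I E) E + 7 ≤ W I E := by
    have := W_tk (I := I) (E := E) v ∅ hvU (notMem_empty v) (by simp) (by simp)
    rw [sum_wt hS, (hall v hvf).1, (hall v hvf).2] at this
    simp only [card_empty] at this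
    omega
  have hW2 : W (tk v I E) (sh a E) + 1 = W (tk v I E) E := W_sh_one hkaJ haka hka4 hJa
  have hkbE : sh a E kb = E kb := by
    unfold sh
    exact erase_eq_of_notMem hakb
  have hW3 : W (tk v I E) (sh b (sh a E)) + 1 = W (tk v I E) (sh a E) := by
    refine W_sh_one hkbJ ?_ ?_ ?_
    · rw [hkbE]; exact hbkb
    · rw [hkbE]; exact hkb4
    · intro i hi hbi
      exact hJb i hi (mem_of_mem_erase hbi)
  have hmem : ∀ x i, x ∈ sh b (sh a E) i ↔ x ≠ b ∧ x ≠ a ∧ x ∈ E i := by
    intro x i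
    unfold sh
    rw [mem_erase, mem_erase]
  have hEka : sh b (sh a E) ka = (E ka).erase a := by
    ext x
    rw [hmem, mem_erase]
    constructor
    · rintro ⟨_, h2, h3⟩
      exact ⟨h2, h3⟩
    · rintro ⟨h2, h3⟩
      exact ⟨fun h => hbka (h ▸ h3), h2, h3⟩
  have hEka3 : (sh b (sh a E) ka).card = 3 := by
    rw [hEka, card_erase_of_mem haka, hka4]
  refine step {v} (J := tk v I E) (E' := sh b (sh a E)) (s := 1) ?_ ?_ ?_
  · intro i hi
    by_cases hv : v ∈ E i
    · exact Or.inl ⟨v, hv, mem_singleton_self v⟩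
    · exact Or.inr ⟨mem_filter.2 ⟨hi, hv⟩, (erase_subset _ _).trans (erase_subset _ _)⟩
  · rw [card_singleton]
    omega
  · refine hH _ _ ?_ ?_ ?_ ?_
    · refine lt_of_le_of_lt (card_le_card ?_) (U_tk_lt hvU)
      rw [U_sh, U_sh]
      exact (erase_subset _ _).trans (erase_subset _ _)
    · intro i hi
      by_cases hia : i = ka
      · left
        rw [hia]; exact hEka3
      · by_cases hib : i = kb
        · left
          rw [hib]
          show ((sh a E kb).erase b).card = 3
          rw [hkbE, card_erase_of_mem hbkb, hkb4]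
        · have h1 : a ∉ E i := fun h => hia (hJa i hi h)
          have h2 : b ∉ E i := fun h => hib (hJb i hi h)
          have : sh b (sh a E) i = E i := by
            unfold sh
            rw [erase_eq_of_notMem (by rw [erase_eq_of_notMem h1]; exact h2),
              erase_eq_of_notMem h1]
          rw [this]
          exact hS i (mem_filter.1 hi).1
    · exact (Lin.sh (Lin.sh (Lin.tk hL)))
    · right
      refine ⟨ka, hkaJ, hEka3, ?_⟩
      have hne : (sh b (sh a E) ka).Nonempty := by
        rw [← card_pos, hEka3]; norm_num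
      obtain ⟨x, hx⟩ := hne
      obtain ⟨hxb, hxa, hxka⟩ := (hmem x ka).1 hx
      have hxU : x ∈ U I E := mem_biUnion.2 ⟨ka, hka, hxka⟩
      -- another edge
      have key : ∃ j ∈ tk v I E, j ≠ ka ∧ x ∈ E j := by
        have h4pos : 0 < dg 4 x I E := by
          unfold dg
          rw [card_pos]
          exact ⟨ka, mem_filter.2 ⟨hka, hxka, hka4⟩⟩
        rcases hT x hxU with ⟨h4, h3⟩ | ⟨h4, h3⟩ | ⟨h4, h3⟩
        · -- three edges of size 4
          have hc : 0 < (((I.filter (fun i => x ∈ E i ∧ (E i).card = 4)).erase ka).erase kv).card := by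
            have e1 := pred_card_le_card_erase (s := I.filter (fun i => x ∈ E i ∧ (E i).card = 4))
              (a := ka)
            have e2 := pred_card_le_card_erase
              (s := (I.filter (fun i => x ∈ E i ∧ (E i).card = 4)).erase ka) (a := kv)
            unfold dg at h4
            omega
          obtain ⟨j, hj⟩ := card_pos.1 hc
          rw [mem_erase, mem_erase, mem_filter] at hj
          obtain ⟨hjkv, hjka, hjI, hxj, hj4⟩ := hj
          refine ⟨j, mem_filter.2 ⟨hjI, fun hvj => ?_⟩, hjka, hxj⟩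
          rcases huv j hjI hvj with rfl | h
          · omega
          · exact hjkv h
        · -- one edge of size 3
          unfold dg at h3
          obtain ⟨g, hg⟩ := card_eq_one.1 h3
          have hg' : g ∈ I.filter (fun i => x ∈ E i ∧ (E i).card = 3) := by
            rw [hg]; exact mem_singleton_self g
          rw [mem_filter] at hg'
          obtain ⟨hgI, hxg, hg3⟩ := hg'
          refine ⟨g, mem_filter.2 ⟨hgI, fun hvg => ?_⟩, ?_, hxg⟩
          · rcases huv g hgI hvg with rfl | h
            · exact hxa (hL g hf ka hka hfka x hxg hxka a haf haka)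
            · rw [h] at hg3; omega
          · rintro rfl
            omega
        · omega
      obtain ⟨j, hj, hjka, hxj⟩ := key
      exact ⟨j, hj, fun h => hjka h.symm, x, hx, (hmem x j).2 ⟨hxb, hxa, hxj⟩⟩

end Run7.h426.DOM
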