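import Pool.Agent.Run7.h426.DOM.Iface

set_option autoImplicit false

namespace Run7.h426.DOM

open Finset

theorem t_L6C (hC : S_CUB) : S_L6C := by
  intro I E hP hS hL h3 hex
  obtain ⟨f, hf, hf3⟩ := hex
  set F := I.filter (fun i => (E i).card = 3) with hF
  set J := I.filter (fun i => ¬ (E i).card = 3) with hJ
  have hdis : Disjoint (U F E) (U J E) := by
    rw [disjoint_left]
    intro a ha hb
    simp only [U, hF, hJ, mem_biUnion, mem_filter] at ha hb
    obtain ⟨i, ⟨hi, hi3⟩, hai⟩ := ha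
    obtain ⟨j, ⟨hj, hj3⟩, haj⟩ := hb
    have h4 := (h3 i hi hi3 a hai).2
    have h4' : j ∈ I.filter (fun i => a ∈ E i ∧ (E i).card = 4) := by
      rw [mem_filter]
      refine ⟨hj, haj, ?_⟩
      rcases hS j hj with h | h
      · exact absurd h hj3
      · exact h
    unfold dg at h4
    rw [card_eq_zero] at h4
    rw [h4] at h4'
    exact absurd h4' (notMem_empty _)
  have hU : U I E = U F E ∪ U J E := by
    ext a
    simp only [U, hF, hJ, mem_union, mem_biUnion, mem_filter]
    constructor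
    · rintro ⟨i, hi, hai⟩
      by_cases h : (E i).card = 3
      · exact Or.inl ⟨i, ⟨hi, h⟩, hai⟩
      · exact Or.inr ⟨i, ⟨hi, h⟩, hai⟩
    · rintro (⟨i, ⟨hi, _⟩, hai⟩ | ⟨i, ⟨hi, _⟩, hai⟩) <;> exact ⟨i, hi, hai⟩
  have hWW : W I E = W F E + W J E := by
    unfold W
    rw [hU, card_union_of_disjoint hdis]
    have := sum_filter_add_sum_filter_not I (fun i => (E i).card = 3) (fun i => wt (E i).card)
    rw [← hF, ← hJ] at this
    omega
  have h1 : Sl 1 F E := by
    refine hC F E ⟨f, mem_filter.2 ⟨hf, hf3⟩⟩ (fun i hi => (mem_filter.1 hi).2) ?_ ?_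
    · exact fun i hi j hj => hL i (mem_filter.1 hi).1 j (mem_filter.1 hj).1
    · intro v hv
      simp only [U, hF, mem_biUnion, mem_filter] at hv
      obtain ⟨i, ⟨hi, hi3⟩, hvi⟩ := hv
      have := (h3 i hi hi3 v hvi).1
      unfold dg at this
      rw [← this, hF, filter_filter]
      congr 1
      ext j
      simp only [mem_filter]
      tauto
  have hlt : (U J E).card < (U I E).card := by
    have hne : 0 < (U F E).card := by
      rw [card_pos]
      have : (E f).Nonempty := by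
        rw [← card_pos, hf3]; norm_num
      obtain ⟨a, ha⟩ := this
      exact ⟨a, mem_biUnion.2 ⟨f, mem_filter.2 ⟨hf, hf3⟩, ha⟩⟩
    rw [hU, card_union_of_disjoint hdis]
    omega
  have h2 : Sl 0 J E := by
    refine hP J E hlt ?_
    exact fun i hi => hS.sz i (mem_filter.1 hi).1
  obtain ⟨T1, a1, b1⟩ := h1
  obtain ⟨T2, a2, b2⟩ := h2
  refine ⟨T1 ∪ T2, ?_, ?_⟩
  · intro i hi
    by_cases h : (E i).card = 3
    · obtain ⟨v, hv, hT⟩ := a1 i (mem_filter.2 ⟨hi, h⟩)
      exact ⟨v, hv, mem_union_left _ hT⟩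
    · obtain ⟨v, hv, hT⟩ := a2 i (mem_filter.2 ⟨hi, h⟩)
      exact ⟨v, hv, mem_union_right _ hT⟩
  · have := card_union_le T1 T2
    omega

end Run7.h426.DOM
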